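import Pool.Agent.U937.DD.Def
import Pool.Agent.U863.CT.Tfp

set_option autoImplicit false

/-!
# Orientation reversing involutions in amalgamated sums
-/

namespace Pool.Agent.U937.DD

instance normal_zpowers (T : Ty) : (Subgroup.zpowers T.z).Normal := by
  refine ⟨fun n hn g => ?_⟩
  obtain ⟨k, rfl⟩ := Subgroup.mem_zpowers_iff.1 hn
  have h0 : Commute g T.z := (T.central g).symm
  have h : Commute g (T.z ^ k) := h0.zpow_right k
  rw [h.eq, mul_assoc, mul_inv_cancel, mul_one]
  exact hn

/-- the quotient by the central involution -/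
abbrev Bar (T : Ty) : Type := T.G ⧸ Subgroup.zpowers T.z

theorem mem_zp {T : Ty} {g : T.G} (h : g ∈ Subgroup.zpowers T.z) : g = 1 ∨ g = T.z := by
  obtain ⟨k, rfl⟩ := Subgroup.mem_zpowers_iff.1 h
  have h2 : T.z ^ (2 : ℤ) = 1 := by
    rw [zpow_two, T.sq]
  rcases Int.even_or_odd' k with ⟨c, rfl | rfl⟩
  · left; rw [zpow_mul, h2, one_zpow]
  · right; rw [zpow_add, zpow_mul, h2, one_zpow, one_mul, zpow_one]

/-- the map of the quotients -/
def barMap {S T : Ty} (f : Mor S T) : Bar S →* Bar T :=
  QuotientGroup.map _ _ f.f (by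
    rw [Subgroup.zpowers_le]
    change f.f S.z ∈ Subgroup.zpowers T.z
    rw [f.map_z]
    exact Subgroup.mem_zpowers _)

theorem barMap_mk {S T : Ty} (f : Mor S T) (g : S.G) :
    barMap f (QuotientGroup.mk g) = QuotientGroup.mk (f.f g) := rfl

section

variable {T U V : Ty}

/-- the two factors -/
def Fac (T U : Ty) : Bool → Type
  | true => Bar T
  | false => Bar U

instance (b : Bool) : Group (Fac T U b) :=
  match b with
  | true => inferInstanceAs (Group (Bar T))
  | false => inferInstanceAs (Group (Bar U))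

/-- first factor -/
def inT (T U : Ty) : Bar T →* Monoid.CoprodI (Fac T U) :=
  (Monoid.CoprodI.of : Fac T U true →* Monoid.CoprodI (Fac T U))

/-- second factor -/
def inU (T U : Ty) : Bar U →* Monoid.CoprodI (Fac T U) :=
  (Monoid.CoprodI.of : Fac T U false →* Monoid.CoprodI (Fac T U))

theorem exists_phi {i : Mor T V} {j : Mor U V} (h : IsPushout i j) :
    ∃ φ : V.G →* Monoid.CoprodI (Fac T U), (∀ t, φ (i.f t) = inT T U (QuotientGroup.mk t)) ∧
      (∀ u, φ (j.f u) = inU T U (QuotientGroup.mk u)) ∧ (∀ v, φ v = 1 → v = 1 ∨ v = V.z) ∧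
      Function.Surjective φ := by
  obtain ⟨φ, ⟨h1, h2⟩, -⟩ := h (Monoid.CoprodI (Fac T U))
    ((inT T U).comp (QuotientGroup.mk' (Subgroup.zpowers T.z)))
    ((inU T U).comp (QuotientGroup.mk' (Subgroup.zpowers U.z))) (by
      have e1 : (QuotientGroup.mk' (Subgroup.zpowers T.z)) T.z = 1 :=
        (QuotientGroup.eq_one_iff _).2 (Subgroup.mem_zpowers _)
      have e2 : (QuotientGroup.mk' (Subgroup.zpowers U.z)) U.z = 1 :=
        (QuotientGroup.eq_one_iff _).2 (Subgroup.mem_zpowers _)
      rw [MonoidHom.comp_apply, MonoidHom.comp_apply, e1, e2, map_one, map_one])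
  have hT : ∀ t, φ (i.f t) = inT T U (QuotientGroup.mk t) := fun t => DFunLike.congr_fun h1 t
  have hU : ∀ u, φ (j.f u) = inU T U (QuotientGroup.mk u) := fun u => DFunLike.congr_fun h2 u
  refine ⟨φ, hT, hU, ?_, ?_⟩
  · intro v hv
    let F : ∀ b, Fac T U b →* Bar V := fun b =>
      match b with
      | true => barMap i
      | false => barMap j
    let ψ : Monoid.CoprodI (Fac T U) →* Bar V := Monoid.CoprodI.lift F
    have hψT : ∀ t : Bar T, ψ (inT T U t) = barMap i t := fun t =>
      Monoid.CoprodI.lift_of (fi := F) (i := true) t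
    have hψU : ∀ t : Bar U, ψ (inU T U t) = barMap j t := fun t =>
      Monoid.CoprodI.lift_of (fi := F) (i := false) t
    obtain ⟨χ, -, huniq⟩ := h (Bar V)
      ((QuotientGroup.mk' (Subgroup.zpowers V.z)).comp i.f)
      ((QuotientGroup.mk' (Subgroup.zpowers V.z)).comp j.f) (by
        simp only [MonoidHom.comp_apply, i.map_z, j.map_z])
    have e1 : ψ.comp φ = χ := by
      apply huniq
      constructor
      · ext t
        simp only [MonoidHom.comp_apply]
        rw [hT, hψT, barMap_mk]
        rfl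
      · ext t
        simp only [MonoidHom.comp_apply]
        rw [hU, hψU, barMap_mk]
        rfl
    have e2 : QuotientGroup.mk' (Subgroup.zpowers V.z) = χ := huniq _ ⟨rfl, rfl⟩
    have e3 : QuotientGroup.mk' (Subgroup.zpowers V.z) v = ψ (φ v) := by
      rw [e2, ← e1]; rfl
    rw [hv, map_one] at e3
    exact mem_zp ((QuotientGroup.eq_one_iff _).1 e3)
  · intro x
    induction x using Monoid.CoprodI.induction_on with
    | one => exact ⟨1, map_one _⟩
    | of b m =>
      cases b with
      | true =>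
        obtain ⟨t, rfl⟩ := QuotientGroup.mk_surjective (s := Subgroup.zpowers T.z) m
        exact ⟨i.f t, hT t⟩
      | false =>
        obtain ⟨t, rfl⟩ := QuotientGroup.mk_surjective (s := Subgroup.zpowers U.z) m
        exact ⟨j.f t, hU t⟩
    | mul x y hx hy =>
      obtain ⟨a, rfl⟩ := hx
      obtain ⟨b, rfl⟩ := hy
      exact ⟨a * b, map_mul _ _ _⟩

/-- **an orientation reversing involution of an amalgamated sum with an orientable summand is
conjugate to an element of the other summand** -/
theorem involution {i : Mor T V} {j : Mor U V} (h : IsPushout i j) (hT : T.w = 1) (x : V.G)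
    (hx : x * x = 1) (hw : V.w x = -1) :
    ∃ (g : V.G) (u : U.G), V.w g = 1 ∧ x = g * j.f u * g⁻¹ := by
  obtain ⟨φ, hφT, hφU, hker, hsur⟩ := exists_phi h
  have hne : (-1 : ℤˣ) ≠ 1 := by decide
  have hfin : IsOfFinOrder (φ x) := by
    rw [isOfFinOrder_iff_pow_eq_one]
    exact ⟨2, by norm_num, by rw [← map_pow, pow_two, hx, map_one]⟩
  have key : ∃ (g : V.G) (u : U.G), x = g * j.f u * g⁻¹ := by
    rcases Pool.Agent.U863.CT.torsion_coprodI (φ x) hfin with h1 | ⟨b, a, c, hc⟩
    · exfalso
      rcases hker x h1 with rfl | rfl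
      · rw [map_one] at hw; exact hne hw.symm
      · rw [V.wz] at hw; exact hne hw.symm
    · obtain ⟨g, rfl⟩ := hsur c
      cases b with
      | true =>
        exfalso
        obtain ⟨t, rfl⟩ := QuotientGroup.mk_surjective (s := Subgroup.zpowers T.z) a
        have h1 : φ (x * (g * i.f t * g⁻¹)⁻¹) = 1 := by
          rw [map_mul, map_inv, map_mul, map_mul, map_inv, hφT, hc]
          exact mul_inv_cancel _
        have h2 : V.w (g * i.f t * g⁻¹) = 1 := by
          rw [map_mul, map_mul, map_inv, i.map_w, hT]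
          simp
        have h3 : V.w (x * (g * i.f t * g⁻¹)⁻¹) = -1 := by
          rw [map_mul, map_inv, h2, hw]; simp
        rcases hker _ h1 with h4 | h4
        · rw [h4, map_one] at h3; exact hne h3.symm
        · rw [h4, V.wz] at h3; exact hne h3.symm
      | false =>
        obtain ⟨t, rfl⟩ := QuotientGroup.mk_surjective (s := Subgroup.zpowers U.z) a
        have h1 : φ (x * (g * j.f t * g⁻¹)⁻¹) = 1 := by
          rw [map_mul, map_inv, map_mul, map_mul, map_inv, hφU, hc]
          exact mul_inv_cancel _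
        rcases hker _ h1 with h4 | h4
        · exact ⟨g, t, mul_inv_eq_one.1 h4⟩
        · refine ⟨g, U.z * t, ?_⟩
          have h5 : x = V.z * (g * j.f t * g⁻¹) := mul_inv_eq_iff_eq_mul.1 h4
          rw [h5, map_mul, j.map_z]
          have h6 := V.central g
          calc V.z * (g * j.f t * g⁻¹) = (V.z * g) * j.f t * g⁻¹ := by group
            _ = (g * V.z) * j.f t * g⁻¹ := by rw [h6]
            _ = g * (V.z * j.f t) * g⁻¹ := by group
  obtain ⟨g, u, hg⟩ := key
  rcases Int.units_eq_one_or (V.w g) with h1 | h1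
  · exact ⟨g, u, h1, hg⟩
  · have h2 : V.w (j.f u) = -1 := by
      rw [hg, map_mul, map_mul, map_inv, h1] at hw
      simpa using hw
    refine ⟨g * j.f u, u, by rw [map_mul, h1, h2]; rfl, ?_⟩
    rw [hg]
    group

end

end Pool.Agent.U937.DD
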