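import Mathlib

set_option autoImplicit false

/-!
# Triangulated 4-manifolds, pin fundamental groups and twisted spin bordism: definitions
-/

namespace Pool.Agent.U937.DD

/-! ### Triangulations -/

/-- A simplicial complex: a set of finite sets of vertices, the vertices being natural numbers. -/
abbrev Cplx : Type := Set (Finset ℕ)

/-- The finite data given to an algorithm: a list of lists of vertices. -/
abbrev Code : Type := List (List ℕ)

/-- The complex spanned by a list of lists of vertices: the nonempty subsets of these lists. -/
def spanned (K : Code) : Cplx := {s | s.Nonempty ∧ ∃ σ ∈ K, s ⊆ σ.toFinset}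

/-- The geometric realization. -/
def realization (X : Cplx) : Set (ℕ → ℝ) :=
  {x | (∀ i, 0 ≤ x i) ∧ ∃ s ∈ X, (∀ i, i ∉ s → x i = 0) ∧ ∑ i ∈ s, x i = 1}

/-- Homeomorphic: the realizations are homeomorphic. -/
def Homeo (K L : Code) : Prop :=
  Nonempty (realization (spanned K) ≃ₜ realization (spanned L))

/-- The stellar subdivision of the complex at the simplex `s` with the new vertex `v`. -/
def stellar (X : Cplx) (s : Finset ℕ) (v : ℕ) : Cplx :=
  {t | t ∈ X ∧ ¬ s ⊆ t} ∪ {t | ∃ u, ¬ s ⊆ u ∧ s ∪ u ∈ X ∧ t = insert v u}

/-- An elementary move: a stellar subdivision or a renaming of the vertices. -/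
def Move (X Y : Cplx) : Prop :=
  (∃ s ∈ X, ∃ v, (∀ t ∈ X, v ∉ t) ∧ Y = stellar X s v) ∨
    ∃ π : Equiv.Perm ℕ, Y = {t | ∃ u ∈ X, t = u.map π.toEmbedding}

/-- Stellar equivalence of complexes (for finite complexes this is piecewise linear
homeomorphism, by Alexander's theorem). -/
def Stellar (X Y : Cplx) : Prop := Relation.EqvGen Move X Y

/-- The link of a vertex. -/
def link (X : Cplx) (v : ℕ) : Cplx := {t | t.Nonempty ∧ v ∉ t ∧ insert v t ∈ X}

/-- The boundary of the simplex of dimension 4, a 3-sphere. -/
def sphere3 : Cplx := {t | t.Nonempty ∧ t ⊂ Finset.range 5}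

/-- The simplex of dimension 3, a 3-ball. -/
def ball3 : Cplx := {t | t.Nonempty ∧ t ⊆ Finset.range 4}

/-- A triangulated compact smooth 4-manifold: the link of every vertex is a PL 3-sphere or a PL
3-ball. -/
def Manifold (K : Code) : Prop :=
  ∀ v, {v} ∈ spanned K → Stellar (link (spanned K) v) sphere3 ∨ Stellar (link (spanned K) v) ball3

/-- A triangulated closed connected smooth 4-manifold. -/
def Closed (K : Code) : Prop :=
  (∀ v, {v} ∈ spanned K → Stellar (link (spanned K) v) sphere3) ∧
    IsConnected (realization (spanned K))

/-- The smooth manifolds given by the triangulations are diffeomorphic: the complexes are stellar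
equivalent. -/
def Diffeo (K L : Code) : Prop := Stellar (spanned K) (spanned L)

/-- **The question**: an algorithm which halts on all pairs of homeomorphic triangulated smooth
compact 4-manifolds and decides whether they are diffeomorphic. -/
def Q1 : Prop :=
  ∃ f : Code × Code →. Bool, Partrec f ∧ ∀ K L : Code, Manifold K → Manifold L → Homeo K L →
    ∃ b ∈ f (K, L), (b = true ↔ Diffeo K L)

/-! ### Types: groups with a central involution and an orientation character -/

/-- A type: a group with a central element `z`, `z ^ 2 = 1`, and a homomorphism `w` to `{1, -1}`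
with `w z = 1`. -/
structure Ty where
  /-- the group -/
  G : Type
  [grp : Group G]
  /-- the central element -/
  z : G
  /-- the orientation character -/
  w : G →* ℤˣ
  central : ∀ g, z * g = g * z
  sq : z * z = 1
  wz : w z = 1

attribute [instance] Ty.grp

/-- A morphism of types: a homomorphism which respects `z` and `w`. -/
@[ext]
structure Mor (S T : Ty) where
  /-- the homomorphism -/
  f : S.G →* T.G
  map_z : f S.z = T.z
  map_w : ∀ g, T.w (f g) = S.w g

/-- Composition. -/
def Mor.comp {S T U : Ty} (g : Mor T U) (f : Mor S T) : Mor S U where
  f := g.f.comp f.f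
  map_z := by simp [f.map_z, g.map_z]
  map_w x := by simp [f.map_w, g.map_w]

/-- Conjugation by an element. -/
def inner (T : Ty) (g : T.G) : Mor T T where
  f := (MulAut.conj g).toMonoidHom
  map_z := by
    change g * T.z * g⁻¹ = T.z
    rw [← T.central, mul_assoc, mul_inv_cancel, mul_one]
  map_w x := by
    change T.w (g * x * g⁻¹) = T.w x
    rw [map_mul, map_mul, map_inv, mul_comm (T.w g), mul_assoc, mul_inv_cancel, mul_one]

/-- `T` is the amalgamated sum of `S₁` and `S₂` along the elements `z`. -/
def IsPushout {S₁ S₂ T : Ty} (i : Mor S₁ T) (j : Mor S₂ T) : Prop :=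
  ∀ (H : Type) [Group H] (f : S₁.G →* H) (g : S₂.G →* H), f S₁.z = g S₂.z →
    ∃! h : T.G →* H, h.comp i.f = f ∧ h.comp j.f = g

/-- The group of order two. -/
abbrev C2 : Type := Multiplicative (ZMod 2)

/-- The type of spin manifolds: the group of order two generated by `z`. -/
def spinTy : Ty where
  G := C2
  z := Multiplicative.ofAdd 1
  w := 1
  central _ := mul_comm _ _
  sq := by decide
  wz := rfl

/-- The nontrivial character of the group of order two. -/
def sgn : C2 →* ℤˣ where
  toFun x := if x = 1 then 1 else -1
  map_one' := by simp
  map_mul' := by decide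

/-- The type of Pin⁺ manifolds: the product of the group of order two, on which `w` is not trivial,
and of the group of order two generated by `z`. -/
def pinTy : Ty where
  G := C2 × C2
  z := (1, Multiplicative.ofAdd 1)
  w := sgn.comp (MonoidHom.fst C2 C2)
  central _ := mul_comm _ _
  sq := by decide
  wz := by simp

/-- A marked presentation with `n` generators: a list of relators, each with a mark. -/
abbrev Pres (n : ℕ) : Type := List (List (Fin n × Bool) × Bool)

/-- The relators of a marked presentation in the product of the free group and the group of order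
two: the second component is the mark. -/
def relators {n : ℕ} (P : Pres n) : Set (FreeGroup (Fin n) × C2) :=
  {x | ∃ r ∈ P, x = (FreeGroup.mk r.1, if r.2 then Multiplicative.ofAdd 1 else 1)}

/-- The group generated by the generators and a central element `z`, `z ^ 2 = 1`, with the
relations `r = 1` for the relators without mark and `r = z` for the marked relators. -/
def ghat {n : ℕ} (P : Pres n) : Ty where
  G := (FreeGroup (Fin n) × C2) ⧸ Subgroup.normalClosure (relators P)
  z := QuotientGroup.mk (1, Multiplicative.ofAdd 1)
  w := 1
  central g := by
    induction g using QuotientGroup.induction_on with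
    | H g =>
      rw [← QuotientGroup.mk_mul, ← QuotientGroup.mk_mul]
      congr 1
      ext
      · simp
      · simp [mul_comm]
  sq := by
    rw [← QuotientGroup.mk_mul]
    have : ((1, Multiplicative.ofAdd 1) * (1, Multiplicative.ofAdd 1) :
        FreeGroup (Fin n) × C2) = 1 := by
      rw [Prod.mk_mul_mk]
      rfl
    rw [this]
    rfl
  wz := rfl

end Pool.Agent.U937.DD
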