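import Pool.Agent.U937.DD.Main
import Pool.Agent.Y669.TA.WPU

set_option autoImplicit false

/-!
# There is no algorithm
-/

namespace Pool.Agent.U937.DD

theorem upL_prim {m : ℕ} : Primrec (upL : Fin m × Bool → Fin (m + 2) × Bool) :=
  Primrec.dom_finite _

theorem up_prim {m : ℕ} : Primrec (up : List (Fin m × Bool) → List (Fin (m + 2) × Bool)) :=
  Primrec.list_map Primrec.id ((upL_prim (m := m)).comp Primrec.snd).to₂

theorem invRev_prim {n : ℕ} :
    Primrec (FreeGroup.invRev : List (Fin n × Bool) → List (Fin n × Bool)) := by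
  have h : Primrec fun w : List (Fin n × Bool) =>
      (w.map (fun g : Fin n × Bool => (g.1, not g.2))).reverse :=
    Primrec.list_reverse.comp (Primrec.list_map Primrec.id
      ((Primrec.dom_finite (fun g : Fin n × Bool => (g.1, not g.2))).comp Primrec.snd).to₂)
  exact h

theorem inWord_prim {m : ℕ} :
    Primrec (inWord : List (Fin m × Bool) → List (Fin (m + 2) × Bool)) :=
  Primrec.list_append.comp up_prim (Primrec.list_append.comp (Primrec.const _)
    (Primrec.list_append.comp (invRev_prim.comp up_prim) (Primrec.const _)))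

theorem rhoWord_prim {m : ℕ} :
    Primrec (rhoWord : List (Fin m × Bool) → List (Fin (m + 2) × Bool)) :=
  Primrec.list_append.comp inWord_prim (Primrec.list_append.comp (Primrec.const _)
    (Primrec.list_append.comp (invRev_prim.comp inWord_prim) (Primrec.const _)))

theorem pw_prim {m : ℕ} (R : Finset (FreeGroup (Fin m))) : Primrec (pw R) :=
  Primrec.list_append.comp (Primrec.const _) (Primrec.list_cons.comp
    (Primrec.pair rhoWord_prim (Primrec.const true)) (Primrec.const []))

theorem Closed.manifold {M : Code} (h : Closed M) : Manifold M := fun v hv => Or.inl (h.1 v hv)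

namespace Known

/-- every recursively enumerable set is reduced to the question -/
theorem hard (K : Known) (S : ℕ → Prop) (hS : REPred S) : ∃ M N : ℕ → Code, Computable M ∧ Computable N ∧
    ∀ n, Closed (M n) ∧ Closed (N n) ∧ Homeo (M n) (N n) ∧ (Diffeo (M n) (N n) ↔ S n) := by
  obtain ⟨m, R, hR⟩ := Pool.Agent.Y669.TA.WPU.word_problem_re
  obtain ⟨W, hW, hWS⟩ := hR S hS
  have h1 : Computable fun n => K.bd (m + 2) (pw R (W n)) :=
    (K.bd_computable _).comp ((pw_prim R).to_comp.comp hW)
  have h2 : ∀ A : Code, Computable fun n => K.sum (K.bd (m + 2) (pw R (W n))) A := fun A =>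
    K.sum_computable.comp (h1.pair (Computable.const A))
  refine ⟨_, _, h2 K.A, h2 K.B, fun n => ⟨K.sum_closed _ _ (K.bd_closed _ _) K.A_closed,
    K.sum_closed _ _ (K.bd_closed _ _) K.B_closed, K.homeo _ (K.bd_closed _ _), ?_⟩⟩
  rw [K.diffeo_iff R (W n)]
  exact hWS n

/-- a recursively enumerable set which is not computable -/
theorem exists_re : ∃ S : ℕ → Prop, REPred S ∧ ¬ ComputablePred S := by
  refine ⟨fun n => (Nat.Partrec.Code.eval (Denumerable.ofNat Nat.Partrec.Code n) 0).Dom, ?_, ?_⟩
  · exact (ComputablePred.halting_problem_re 0).comp (Computable.ofNat Nat.Partrec.Code)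
  · intro h
    apply ComputablePred.halting_problem 0
    obtain ⟨hd, hc⟩ := h
    have h1 : ComputablePred fun c : Nat.Partrec.Code =>
        (Nat.Partrec.Code.eval (Denumerable.ofNat Nat.Partrec.Code (Encodable.encode c)) 0).Dom :=
      ⟨fun c => hd _, hc.comp Computable.encode⟩
    exact h1.of_eq fun c => by rw [Denumerable.ofNat_encode]

/-- no algorithm decides whether the central element is trivial -/
theorem z_undecidable : ∃ n, ¬ ComputablePred fun P : Pres n => (ghat P).z = 1 := by
  obtain ⟨S, hS, hSc⟩ := exists_re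
  obtain ⟨m, R, hR⟩ := Pool.Agent.Y669.TA.WPU.word_problem_re
  obtain ⟨W, hW, hWS⟩ := hR S hS
  refine ⟨m + 2, fun h => hSc ?_⟩
  obtain ⟨hd, hc⟩ := h
  have h1 : ComputablePred fun n => (ghat (pw R (W n))).z = 1 :=
    ⟨fun n => hd _, hc.comp ((pw_prim R).to_comp.comp hW)⟩
  exact h1.of_eq fun n => (z_iff R (W n)).trans (hWS n)

/-- **There is no algorithm** -/
theorem not_Q1 (K : Known) : ¬ Q1 := by
  rintro ⟨f, hf, hfQ⟩
  obtain ⟨S, hS, hSc⟩ := exists_re
  obtain ⟨M, N, hM, hN, h⟩ := K.hard S hS
  apply hSc
  classical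
  have h1 : Partrec fun n => f (M n, N n) := hf.comp (hM.pair hN)
  have h2 : ∀ n, f (M n, N n) = Part.some (decide (S n)) := by
    intro n
    obtain ⟨c1, c2, c3, c4⟩ := h n
    obtain ⟨b, hb, hb1⟩ := hfQ _ _ c1.manifold c2.manifold c3
    rw [Part.eq_some_iff]
    convert hb using 1
    rw [c4] at hb1
    cases b
    · simp only [Bool.false_eq_true, false_iff] at hb1
      exact decide_eq_false hb1
    · simp only [true_iff] at hb1
      exact decide_eq_true hb1
  have h3 : Computable fun n => decide (S n) := by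
    have h4 : Partrec (fun n => (Part.some (decide (S n)) : Part Bool)) :=
      h1.of_eq h2
    exact h4
  exact ⟨inferInstance, h3⟩

end Known

end Pool.Agent.U937.DD
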