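import Pool.Agent.U937.DD.Def

set_option autoImplicit false

/-!
# The marked presentations attached to the words of a group
-/

namespace Pool.Agent.U937.DD

variable {m : ℕ}

/-- inclusion of the letters -/
def upL (x : Fin m × Bool) : Fin (m + 2) × Bool := (Fin.castAdd 2 x.1, x.2)

/-- inclusion of the words -/
def up (w : List (Fin m × Bool)) : List (Fin (m + 2) × Bool) := w.map upL

/-- the letter `y` -/
def ly (m : ℕ) : Fin (m + 2) := Fin.natAdd m 0
/-- the letter `s` -/
def ls (m : ℕ) : Fin (m + 2) := Fin.natAdd m 1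

/-- the word `w y w⁻¹ y⁻¹` -/
def inWord (w : List (Fin m × Bool)) : List (Fin (m + 2) × Bool) :=
  up w ++ ([(ly m, true)] ++ (FreeGroup.invRev (up w) ++ [(ly m, false)]))

/-- the word `[[w, y], s]` -/
def rhoWord (w : List (Fin m × Bool)) : List (Fin (m + 2) × Bool) :=
  inWord w ++ ([(ls m, true)] ++ (FreeGroup.invRev (inWord w) ++ [(ls m, false)]))

/-- the unmarked presentation of the free product of the group and a free group -/
noncomputable def base (R : Finset (FreeGroup (Fin m))) : Pres (m + 2) :=
  R.toList.map fun r => (up r.toWord, false)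

/-- the marked presentation of a word -/
noncomputable def pw (R : Finset (FreeGroup (Fin m))) (w : List (Fin m × Bool)) : Pres (m + 2) :=
  base R ++ [(rhoWord w, true)]

/-- the inclusion of the free groups -/
def em : FreeGroup (Fin m) →* FreeGroup (Fin (m + 2)) := FreeGroup.map (Fin.castAdd 2)

theorem mk_up (w : List (Fin m × Bool)) : FreeGroup.mk (up w) = em (FreeGroup.mk w) := rfl

/-- the commutator -/
def cm {G : Type} [Group G] (a b : G) : G := a * (b * (a⁻¹ * b⁻¹))

theorem map_cm {G H : Type} [Group G] [Group H] (f : G →* H) (a b : G) :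
    f (cm a b) = cm (f a) (f b) := by simp [cm]

theorem of_inv {α : Type} (a : α) : FreeGroup.mk [(a, false)] = (FreeGroup.of a)⁻¹ := rfl
theorem of_mk {α : Type} (a : α) : FreeGroup.mk [(a, true)] = FreeGroup.of a := rfl

theorem mk_inWord (w : List (Fin m × Bool)) : FreeGroup.mk (inWord w) =
    cm (em (FreeGroup.mk w)) (FreeGroup.of (ly m)) := by
  rw [inWord, ← FreeGroup.mul_mk, ← FreeGroup.mul_mk, ← FreeGroup.mul_mk, ← FreeGroup.inv_mk,
    of_inv, of_mk, mk_up, cm]

theorem mk_rhoWord (w : List (Fin m × Bool)) : FreeGroup.mk (rhoWord w) =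
    cm (cm (em (FreeGroup.mk w)) (FreeGroup.of (ly m))) (FreeGroup.of (ls m)) := by
  rw [rhoWord, ← FreeGroup.mul_mk, ← FreeGroup.mul_mk, ← FreeGroup.mul_mk, ← FreeGroup.inv_mk,
    of_inv, of_mk, mk_inWord]
  rfl

theorem base_mark (R : Finset (FreeGroup (Fin m))) : ∀ x ∈ base R, x.2 = false := by
  intro x hx
  obtain ⟨r, -, rfl⟩ := List.mem_map.1 hx
  rfl

theorem rho_mem (R : Finset (FreeGroup (Fin m))) (w : List (Fin m × Bool))
    (h : FreeGroup.mk w ∈ Subgroup.normalClosure (R : Set (FreeGroup (Fin m)))) :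
    FreeGroup.mk (rhoWord w) ∈
      Subgroup.normalClosure {y | ∃ x ∈ base R, y = FreeGroup.mk x.1} := by
  set N := Subgroup.normalClosure {y | ∃ x ∈ base R, y = FreeGroup.mk x.1} with hN
  have h1 : em (FreeGroup.mk w) ∈ N := by
    have h2 : Subgroup.normalClosure (R : Set (FreeGroup (Fin m))) ≤ N.comap em := by
      apply Subgroup.normalClosure_le_normal
      intro r hr
      change em r ∈ N
      apply Subgroup.subset_normalClosure
      refine ⟨(up r.toWord, false), List.mem_map.2 ⟨r, Finset.mem_toList.2 hr, rfl⟩, ?_⟩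
      change em r = FreeGroup.mk (up r.toWord)
      rw [mk_up, FreeGroup.mk_toWord]
    exact h2 h
  rw [← QuotientGroup.eq_one_iff] at h1 ⊢
  rw [mk_rhoWord]
  change QuotientGroup.mk' N _ = 1
  change QuotientGroup.mk' N _ = 1 at h1
  rw [map_cm, map_cm, h1]
  simp [cm]

/-! ### the representation -/

section

variable (R : Set (FreeGroup (Fin m)))

/-- the group of the presentation -/
abbrev GU : Type := FreeGroup (Fin m) ⧸ Subgroup.normalClosure R

/-- the set acted upon -/
abbrev St : Type := (GU R → ZMod 2) × ZMod 2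

/-- translations -/
def tr : GU R →* Equiv.Perm (St R) where
  toFun u :=
    { toFun := fun p => (fun v => p.1 (u⁻¹ * v), p.2)
      invFun := fun p => (fun v => p.1 (u * v), p.2)
      left_inv := by intro p; simp
      right_inv := by intro p; simp }
  map_one' := by ext p <;> simp
  map_mul' a b := by
    apply Equiv.ext
    intro p
    simp [mul_assoc]

theorem add_self_two (a : ZMod 2) : a + a = 0 := CharTwo.add_self_eq_zero a

open Classical in
/-- adding the indicator function of the identity -/
noncomputable def pY : Equiv.Perm (St R) where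
  toFun p := (fun v => p.1 v + (if v = 1 then 1 else 0), p.2)
  invFun p := (fun v => p.1 v + (if v = 1 then 1 else 0), p.2)
  left_inv p := by ext v <;> simp [add_assoc, add_self_two]
  right_inv p := by ext v <;> simp [add_assoc, add_self_two]

/-- reading off the value at the identity -/
def pS : Equiv.Perm (St R) where
  toFun p := (p.1, p.2 + p.1 1)
  invFun p := (p.1, p.2 + p.1 1)
  left_inv p := by ext <;> simp [add_assoc, add_self_two]
  right_inv p := by ext <;> simp [add_assoc, add_self_two]

/-- the shift -/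
def pZ : C2 →* Equiv.Perm (St R) where
  toFun c :=
    { toFun := fun p => (p.1, p.2 + c.toAdd)
      invFun := fun p => (p.1, p.2 + c.toAdd)
      left_inv := by intro p; ext <;> simp [add_assoc, add_self_two]
      right_inv := by intro p; ext <;> simp [add_assoc, add_self_two] }
  map_one' := by ext p <;> simp
  map_mul' a b := by
    apply Equiv.ext
    intro p
    ext
    · rfl
    · simp only [toAdd_mul, Equiv.coe_fn_mk, Equiv.Perm.mul_apply]
      ring

/-- the action of the letters -/
noncomputable def actL (i : Fin (m + 2)) : Equiv.Perm (St R) :=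
  Fin.addCases (fun i => tr R (QuotientGroup.mk (FreeGroup.of i)))
    (fun j => if j = 0 then pY R else pS R) i

/-- the permutation representation -/
noncomputable def rep : FreeGroup (Fin (m + 2)) →* Equiv.Perm (St R) := FreeGroup.lift (actL R)

theorem rep_em (w : FreeGroup (Fin m)) : rep R (em w) = tr R (QuotientGroup.mk w) := by
  have : (rep R).comp em = (tr R).comp (QuotientGroup.mk' _) := by
    apply FreeGroup.ext_hom
    intro i
    simp [rep, em, actL]
  exact DFunLike.congr_fun this w

theorem rep_y : rep R (FreeGroup.of (ly m)) = pY R := by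
  simp [rep, actL, ly]

theorem rep_s : rep R (FreeGroup.of (ls m)) = pS R := by
  simp [rep, actL, ls]

theorem commL (c : C2) (i : Fin (m + 2)) : pZ R c * actL R i = actL R i * pZ R c := by
  refine Fin.addCases (fun i => ?_) (fun j => ?_) i
  · simp only [actL, Fin.addCases_left]
    rfl
  · simp only [actL, Fin.addCases_right]
    by_cases hj : j = 0
    · rw [if_pos hj]; rfl
    · rw [if_neg hj]
      apply Equiv.ext
      intro p
      ext
      · rfl
      · change (p.2 + p.1 1) + c.toAdd = (p.2 + c.toAdd) + p.1 1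
        ring

theorem commZ (g : FreeGroup (Fin (m + 2))) (c : C2) : Commute (rep R g) (pZ R c) := by
  have : (rep R).range ≤ Subgroup.centralizer {pZ R c} := by
    rw [rep, FreeGroup.range_lift_eq_closure, Subgroup.closure_le]
    rintro _ ⟨i, rfl⟩
    rw [SetLike.mem_coe, Subgroup.mem_centralizer_singleton_iff]
    first
      | exact (commL R c i).symm
      | exact commL R c i
  have h1 := this ⟨g, rfl⟩
  rw [Subgroup.mem_centralizer_singleton_iff] at h1
  first
    | exact h1.symm
    | exact h1

/-- the representation of the product -/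
noncomputable def rep2 : FreeGroup (Fin (m + 2)) × C2 →* Equiv.Perm (St R) :=
  MonoidHom.noncommCoprod (rep R) (pZ R) (commZ R)

theorem rep2_apply (g : FreeGroup (Fin (m + 2))) (c : C2) : rep2 R (g, c) = rep R g * pZ R c := rfl

open Classical in
theorem cm_inner (u : GU R) (p : St R) : cm (tr R u) (pY R) p =
    (fun v => p.1 v + ((if v = 1 then 1 else 0) + (if v = u then 1 else 0)), p.2) := by
  have h1 : ∀ p, (tr R u) p = (fun v => p.1 (u⁻¹ * v), p.2) := fun p => rfl
  have h2 : ∀ p, (tr R u)⁻¹ p = (fun v => p.1 (u * v), p.2) := fun p => rfl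
  have h3 : ∀ p, pY R p = (fun v => p.1 v + (if v = 1 then 1 else 0), p.2) := fun p => rfl
  have h4 : ∀ p, (pY R)⁻¹ p = (fun v => p.1 v + (if v = 1 then 1 else 0), p.2) := fun p => rfl
  simp only [cm, Equiv.Perm.mul_apply, h1, h2, h3, h4, mul_inv_cancel_left, inv_mul_eq_one]
  ext v
  · simp only [eq_comm (a := u), add_assoc]
  · rfl

open Classical in
theorem cm_inner_inv (u : GU R) (p : St R) : (cm (tr R u) (pY R))⁻¹ p =
    (fun v => p.1 v + ((if v = 1 then 1 else 0) + (if v = u then 1 else 0)), p.2) := by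
  rw [Equiv.Perm.inv_eq_iff_eq, cm_inner]
  ext v
  · change p.1 v = (p.1 v + _) + _
    rw [add_assoc, add_self_two, add_zero]
  · rfl

theorem rep_rho {w : FreeGroup (Fin m)} (hw : w ∉ Subgroup.normalClosure R) :
    rep R (cm (cm (em w) (FreeGroup.of (ly m))) (FreeGroup.of (ls m))) =
      pZ R (Multiplicative.ofAdd 1) := by
  classical
  rw [map_cm, map_cm, rep_em, rep_y, rep_s]
  set u : GU R := QuotientGroup.mk w with hu
  have hu1 : (1 : GU R) ≠ u := fun h => hw ((QuotientGroup.eq_one_iff w).mp h.symm)
  have h3 : ∀ p, pS R p = (p.1, p.2 + p.1 1) := fun p => rfl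
  have h4 : ∀ p, (pS R)⁻¹ p = (p.1, p.2 + p.1 1) := fun p => rfl
  apply Equiv.ext
  intro p
  change cm (cm (tr R u) (pY R)) (pS R) p = (p.1, p.2 + 1)
  rw [cm, Equiv.Perm.mul_apply, Equiv.Perm.mul_apply, Equiv.Perm.mul_apply, h4, cm_inner_inv,
    h3, cm_inner]
  simp only [if_true, if_neg hu1]
  ext v
  · change (p.1 v + _) + _ = p.1 v
    rw [add_assoc, add_self_two, add_zero]
  · simp only [add_zero]
    have := add_self_two (p.1 1)
    linear_combination this

theorem pZ_ne : pZ R (Multiplicative.ofAdd 1) ≠ 1 := by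
  intro h
  have h1 : (pZ R (Multiplicative.ofAdd 1)) ((fun _ => 0, 0) : St R) = (fun _ => 0, 0) := by
    rw [h]; rfl
  have h2 : ((0 : ZMod 2) + 1) = 0 := congrArg Prod.snd h1
  revert h2
  decide

end

theorem z_ne_one (R : Finset (FreeGroup (Fin m))) (w : List (Fin m × Bool))
    (h : FreeGroup.mk w ∉ Subgroup.normalClosure (R : Set (FreeGroup (Fin m)))) :
    (ghat (pw R w)).z ≠ 1 := by
  intro hz
  have hle : Subgroup.normalClosure (relators (pw R w)) ≤
      (rep2 (R : Set (FreeGroup (Fin m)))).ker := by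
    apply Subgroup.normalClosure_le_normal
    rintro x ⟨r, hr, rfl⟩
    rw [SetLike.mem_coe, MonoidHom.mem_ker, rep2_apply]
    rcases List.mem_append.1 hr with hr | hr
    · obtain ⟨q, hq, rfl⟩ := List.mem_map.1 hr
      have h1 : FreeGroup.mk (up q.toWord) = em q := by rw [mk_up, FreeGroup.mk_toWord]
      have h2 : (QuotientGroup.mk q : GU (R : Set (FreeGroup (Fin m)))) = 1 :=
        (QuotientGroup.eq_one_iff q).2
          (Subgroup.subset_normalClosure (Finset.mem_coe.2 (Finset.mem_toList.1 hq)))
      simp only [h1, rep_em, h2, map_one, Bool.false_eq_true, if_false, mul_one]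
    · rw [List.mem_singleton.1 hr]
      simp only [if_true]
      rw [mk_rhoWord, rep_rho _ h, ← map_mul]
      exact (congrArg _ (by decide)).trans (map_one _)
  have h1 : ((1, Multiplicative.ofAdd 1) : FreeGroup (Fin (m + 2)) × C2) ∈
      Subgroup.normalClosure (relators (pw R w)) := (QuotientGroup.eq_one_iff _).1 hz
  have h2 := hle h1
  rw [MonoidHom.mem_ker, rep2_apply, map_one, one_mul] at h2
  exact pZ_ne _ h2

theorem z_eq_one (R : Finset (FreeGroup (Fin m))) (w : List (Fin m × Bool))
    (h : FreeGroup.mk w ∈ Subgroup.normalClosure (R : Set (FreeGroup (Fin m)))) :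
    (ghat (pw R w)).z = 1 := by
  set N := Subgroup.normalClosure (relators (pw R w)) with hN
  have h1 : (FreeGroup.mk (rhoWord w), (1 : C2)) ∈ N := by
    have h2 : Subgroup.normalClosure {y | ∃ x ∈ base R, y = FreeGroup.mk x.1} ≤
        N.comap (MonoidHom.inl (FreeGroup (Fin (m + 2))) C2) := by
      apply Subgroup.normalClosure_le_normal
      rintro _ ⟨x, hx, rfl⟩
      change (FreeGroup.mk x.1, (1 : C2)) ∈ N
      apply Subgroup.subset_normalClosure
      refine ⟨x, List.mem_append.2 (Or.inl hx), ?_⟩
      rw [base_mark R x hx]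
      rfl
    exact h2 (rho_mem R w h)
  have h3 : (FreeGroup.mk (rhoWord w), Multiplicative.ofAdd (1 : ZMod 2)) ∈ N := by
    apply Subgroup.subset_normalClosure
    exact ⟨(rhoWord w, true), List.mem_append.2 (Or.inr (List.mem_singleton.2 rfl)), rfl⟩
  have h4 : (FreeGroup.mk (rhoWord w), (1 : C2))⁻¹ *
      (FreeGroup.mk (rhoWord w), Multiplicative.ofAdd (1 : ZMod 2)) ∈ N :=
    N.mul_mem (N.inv_mem h1) h3
  generalize FreeGroup.mk (rhoWord w) = q at h4
  change (QuotientGroup.mk (1, Multiplicative.ofAdd 1) :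
    (FreeGroup (Fin (m + 2)) × C2) ⧸ N) = 1
  rw [QuotientGroup.eq_one_iff]
  have h5 : ((1, Multiplicative.ofAdd (1 : ZMod 2)) : FreeGroup (Fin (m + 2)) × C2) =
      (q, (1 : C2))⁻¹ * (q, Multiplicative.ofAdd (1 : ZMod 2)) := by
    rw [Prod.inv_mk, Prod.mk_mul_mk, inv_mul_cancel, inv_one, one_mul]
  rw [h5]
  exact h4

theorem z_iff (R : Finset (FreeGroup (Fin m))) (w : List (Fin m × Bool)) :
    (ghat (pw R w)).z = 1 ↔
      FreeGroup.mk w ∈ Subgroup.normalClosure (R : Set (FreeGroup (Fin m))) :=
  ⟨fun h => by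
    by_contra hw
    exact z_ne_one R w hw h, z_eq_one R w⟩

end Pool.Agent.U937.DD
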