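import Pool.Agent.U937.DD.Def

set_option autoImplicit false

/-!
# The published theorems of 4-dimensional topology which are used

Intended meaning. All manifolds are smooth. For a closed connected 4-manifold `M` the type `Pi M` is
the fundamental group of the pull-back of `BPin⁺ → BO` to `M` with the image `z` of the generator of
`π₁(fibre) = ℤ/2`, and `w` the first Stiefel-Whitney class; `z = 1` if and only if `w₂` of the
universal covering is not zero. For a type `T` let `H` be the quotient of
`{(g, p) ∈ T × Pin⁺ : w(g) = det p}` by `(z, -1)`, with its homomorphism to `O`; `Om T` is the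
4-dimensional bordism group of manifolds with an `H`-structure on the tangent bundle (spin bordism
for `spinTy`, Pin⁺ bordism for `pinTy`; if `w = 1` the structure contains an orientation). An
`H`-structure of `M` induces a morphism `Pi M → T`, up to conjugation in `T`; `Cls M T f a` means
that `a` is the class of `M` with an `H`-structure which induces a conjugate of `f`.
-/

namespace Pool.Agent.U937.DD

/-- The objects: pin fundamental groups, bordism groups, classes, connected sums, handlebodies. -/
structure Data where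
  /-- the pin fundamental group of a closed connected 4-manifold -/
  Pi : Code → Ty
  /-- the bordism group of a type -/
  Om : Ty → Type
  [ab : ∀ T, AddCommGroup (Om T)]
  /-- functoriality of the bordism groups -/
  map : ∀ {S T : Ty}, Mor S T → Om S →+ Om T
  /-- the bordism classes of a manifold -/
  Cls : ∀ (M : Code) (T : Ty), Mor (Pi M) T → Om T → Prop
  /-- a connected sum -/
  sum : Code → Code → Code
  /-- the boundary of the 5-dimensional handlebody with one 0-handle, `n` orientable 1-handles and
  a 2-handle for each relator `r`, whose framing is even (odd) for the relators without (with) mark: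
  the handle kills `(r, 1)` (or `(r, z)`) in the fundamental group `FreeGroup (Fin n) × C2` of the
  oriented frame bundle of the union of the 0-handle and the 1-handles -/
  bd : ∀ n, Pres n → Code
  /-- `ℝP⁴ # k (S² × S²)`, where `k` is large enough for the field `gompf` -/
  A : Code
  /-- `Q # k (S² × S²)`, `Q` the fake `ℝP⁴` of Cappell and Shaneson -/
  B : Code
  /-- the nontrivial `S²`-bundle over `S²` -/
  S : Code
  /-- Pin⁺ bordism is cyclic of order 16 (Giambalvo, Kirby-Taylor) -/
  pin : Om pinTy ≃+ ZMod 16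

attribute [instance] Data.ab

/-- Twisted spin bordism groups. -/
structure Bordism (K : Data) : Prop where
  -- functoriality
  map_comp : ∀ {T U V : Ty} (g : Mor U V) (f : Mor T U) (a : K.Om T),
    K.map (g.comp f) a = K.map g (K.map f a)
  -- conjugation by an element of the structure group acts trivially
  map_inner : ∀ (T : Ty) (g : T.G), T.w g = 1 → ∀ a, K.map (inner T g) a = a
  -- Mayer-Vietoris sequence: the classifying space of an amalgamated sum is a wedge
  mayer_vietoris : ∀ {T U V : Ty} (i : Mor T V) (j : Mor U V), IsPushout i j → T.z ≠ 1 → U.z ≠ 1 →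
    ∀ a b, K.map i a + K.map j b = 0 → ∃ (c : K.Om spinTy) (u : Mor spinTy T) (v : Mor spinTy U),
      a = K.map u c ∧ b = - K.map v c
  -- spin bordism is detected by the signature, also in oriented twisted bordism
  spin_injective : ∀ (T : Ty) (u : Mor spinTy T), T.z ≠ 1 → T.w = 1 →
    Function.Injective (K.map u)

/-- The bordism classes of manifolds. -/
structure Classes (K : Data) : Prop where
  cls_exists : ∀ M, Closed M → ∀ (T : Ty) (f : Mor (K.Pi M) T), ∃ a, K.Cls M T f a
  cls_map : ∀ M, Closed M → ∀ {T U : Ty} (f : Mor (K.Pi M) T) (g : Mor T U) (b : K.Om U),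
    K.Cls M U (g.comp f) b ↔ ∃ a, K.Cls M T f a ∧ b = K.map g a
  cls_diffeo : ∀ M N, Closed M → Closed N → Diffeo M N → ∃ θ : Mor (K.Pi M) (K.Pi N),
    Function.Bijective θ.f ∧
      ∀ (T : Ty) (f : Mor (K.Pi N) T) a, K.Cls N T f a → K.Cls M T (f.comp θ) a

/-- Connected sums. -/
structure Sums (K : Data) : Prop where
  sum_computable : Computable fun p : Code × Code => K.sum p.1 p.2
  sum_closed : ∀ M N, Closed M → Closed N → Closed (K.sum M N)
  -- van Kampen's theorem and additivity
  sum_pi : ∀ M N, Closed M → Closed N → ∃ (i : Mor (K.Pi M) (K.Pi (K.sum M N)))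
    (j : Mor (K.Pi N) (K.Pi (K.sum M N))), IsPushout i j ∧
      ∀ (T : Ty) (f : Mor (K.Pi (K.sum M N)) T) c, K.Cls (K.sum M N) T f c →
        ∃ a b, K.Cls M T (f.comp i) a ∧ K.Cls N T (f.comp j) b ∧ c = a + b
  -- connected sums are well defined and associative if a non-orientable manifold takes part
  sum_left : ∀ M M' N, Closed M → Closed M' → Closed N → (K.Pi N).w ≠ 1 → Diffeo M M' →
    Diffeo (K.sum M N) (K.sum M' N)
  sum_right : ∀ M N N', Closed M → Closed N → Closed N' → (K.Pi N).w ≠ 1 → Diffeo N N' →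
    Diffeo (K.sum M N) (K.sum M N')
  sum_assoc : ∀ L M N, Closed L → Closed M → Closed N → (K.Pi N).w ≠ 1 →
    Diffeo (K.sum (K.sum L M) N) (K.sum L (K.sum M N))

/-- Boundaries of 5-dimensional handlebodies. -/
structure Handles (K : Data) : Prop where
  bd_computable : ∀ n, Computable (K.bd n)
  bd_closed : ∀ n P, Closed (K.bd n P)
  bd_pi : ∀ n P, ∃ e : Mor (ghat P) (K.Pi (K.bd n P)), Function.Bijective e.f
  bd_cls : ∀ n P (T : Ty) (f : Mor (K.Pi (K.bd n P)) T) a, K.Cls (K.bd n P) T f a → a = 0
  -- surgery on a contractible circle with odd framing (all other framings even)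
  surgery : ∀ n (P : Pres n) (r : List (Fin n × Bool)), (∀ x ∈ P, x.2 = false) →
    FreeGroup.mk r ∈ Subgroup.normalClosure {y | ∃ x ∈ P, y = FreeGroup.mk x.1} →
    Diffeo (K.bd n (P ++ [(r, true)])) (K.sum (K.bd n P) K.S)

/-- The manifolds `A`, `B`, `S`. -/
structure Exotic (K : Data) : Prop where
  A_closed : Closed K.A
  B_closed : Closed K.B
  S_closed : Closed K.S
  A_pi : ∃ e : Mor pinTy (K.Pi K.A), Function.Bijective e.f
  B_pi : ∃ e : Mor pinTy (K.Pi K.B), Function.Bijective e.f
  -- the Pin⁺ bordism classes of `A` and `B` (Stolz, Kirby-Taylor)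
  A_cls : ∀ (f : Mor (K.Pi K.A) pinTy) a, K.Cls K.A pinTy f a → K.pin a = 1 ∨ K.pin a = -1
  B_cls : ∀ (f : Mor (K.Pi K.B) pinTy) a, K.Cls K.B pinTy f a → K.pin a = 9 ∨ K.pin a = -9
  -- `A` and `B` are homeomorphic (Ruberman, Hambleton-Kreck-Teichner)
  homeo : ∀ M, Closed M → Homeo (K.sum M K.A) (K.sum M K.B)
  -- stable diffeomorphism (Gompf)
  gompf : Diffeo (K.sum K.S K.A) (K.sum K.S K.B)

/-- Published theorems on smooth 4-manifolds and their bordism groups. -/
structure Known extends Data where
  bordism : Bordism toData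
  classes : Classes toData
  sums : Sums toData
  handles : Handles toData
  exotic : Exotic toData

namespace Known

variable (K : Known)

theorem map_comp {T U V : Ty} (g : Mor U V) (f : Mor T U) (a : K.Om T) :
    K.map (g.comp f) a = K.map g (K.map f a) := K.bordism.map_comp g f a

theorem map_inner (T : Ty) (g : T.G) (h : T.w g = 1) (a : K.Om T) : K.map (inner T g) a = a :=
  K.bordism.map_inner T g h a

theorem mayer_vietoris {T U V : Ty} (i : Mor T V) (j : Mor U V) (h : IsPushout i j)
    (hT : T.z ≠ 1) (hU : U.z ≠ 1) (a : K.Om T) (b : K.Om U) (hab : K.map i a + K.map j b = 0) :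
    ∃ (c : K.Om spinTy) (u : Mor spinTy T) (v : Mor spinTy U),
      a = K.map u c ∧ b = - K.map v c := K.bordism.mayer_vietoris i j h hT hU a b hab

theorem spin_injective (T : Ty) (u : Mor spinTy T) (h : T.z ≠ 1) (hw : T.w = 1) :
    Function.Injective (K.map u) := K.bordism.spin_injective T u h hw

theorem cls_exists (M : Code) (h : Closed M) (T : Ty) (f : Mor (K.Pi M) T) : ∃ a, K.Cls M T f a :=
  K.classes.cls_exists M h T f

theorem cls_map (M : Code) (h : Closed M) {T U : Ty} (f : Mor (K.Pi M) T) (g : Mor T U)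
    (b : K.Om U) : K.Cls M U (g.comp f) b ↔ ∃ a, K.Cls M T f a ∧ b = K.map g a :=
  K.classes.cls_map M h f g b

theorem cls_diffeo (M N : Code) (hM : Closed M) (hN : Closed N) (h : Diffeo M N) :
    ∃ θ : Mor (K.Pi M) (K.Pi N), Function.Bijective θ.f ∧
      ∀ (T : Ty) (f : Mor (K.Pi N) T) a, K.Cls N T f a → K.Cls M T (f.comp θ) a :=
  K.classes.cls_diffeo M N hM hN h

theorem sum_computable : Computable fun p : Code × Code => K.sum p.1 p.2 := K.sums.sum_computable

theorem sum_closed (M N : Code) (hM : Closed M) (hN : Closed N) : Closed (K.sum M N) :=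
  K.sums.sum_closed M N hM hN

theorem sum_pi (M N : Code) (hM : Closed M) (hN : Closed N) :
    ∃ (i : Mor (K.Pi M) (K.Pi (K.sum M N))) (j : Mor (K.Pi N) (K.Pi (K.sum M N))),
      IsPushout i j ∧ ∀ (T : Ty) (f : Mor (K.Pi (K.sum M N)) T) c, K.Cls (K.sum M N) T f c →
        ∃ a b, K.Cls M T (f.comp i) a ∧ K.Cls N T (f.comp j) b ∧ c = a + b :=
  K.sums.sum_pi M N hM hN

theorem sum_left (M M' N : Code) (hM : Closed M) (hM' : Closed M') (hN : Closed N)
    (hw : (K.Pi N).w ≠ 1) (h : Diffeo M M') : Diffeo (K.sum M N) (K.sum M' N) :=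
  K.sums.sum_left M M' N hM hM' hN hw h

theorem sum_right (M N N' : Code) (hM : Closed M) (hN : Closed N) (hN' : Closed N')
    (hw : (K.Pi N).w ≠ 1) (h : Diffeo N N') : Diffeo (K.sum M N) (K.sum M N') :=
  K.sums.sum_right M N N' hM hN hN' hw h

theorem sum_assoc (L M N : Code) (hL : Closed L) (hM : Closed M) (hN : Closed N)
    (hw : (K.Pi N).w ≠ 1) : Diffeo (K.sum (K.sum L M) N) (K.sum L (K.sum M N)) :=
  K.sums.sum_assoc L M N hL hM hN hw

theorem bd_computable (n : ℕ) : Computable (K.bd n) := K.handles.bd_computable n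

theorem bd_closed (n : ℕ) (P : Pres n) : Closed (K.bd n P) := K.handles.bd_closed n P

theorem bd_pi (n : ℕ) (P : Pres n) :
    ∃ e : Mor (ghat P) (K.Pi (K.bd n P)), Function.Bijective e.f := K.handles.bd_pi n P

theorem bd_cls (n : ℕ) (P : Pres n) (T : Ty) (f : Mor (K.Pi (K.bd n P)) T) (a : K.Om T)
    (h : K.Cls (K.bd n P) T f a) : a = 0 := K.handles.bd_cls n P T f a h

theorem surgery (n : ℕ) (P : Pres n) (r : List (Fin n × Bool)) (hP : ∀ x ∈ P, x.2 = false)
    (hr : FreeGroup.mk r ∈ Subgroup.normalClosure {y | ∃ x ∈ P, y = FreeGroup.mk x.1}) :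
    Diffeo (K.bd n (P ++ [(r, true)])) (K.sum (K.bd n P) K.S) := K.handles.surgery n P r hP hr

theorem A_closed : Closed K.A := K.exotic.A_closed

theorem B_closed : Closed K.B := K.exotic.B_closed

theorem S_closed : Closed K.S := K.exotic.S_closed

theorem A_pi : ∃ e : Mor pinTy (K.Pi K.A), Function.Bijective e.f := K.exotic.A_pi

theorem B_pi : ∃ e : Mor pinTy (K.Pi K.B), Function.Bijective e.f := K.exotic.B_pi

theorem A_cls (f : Mor (K.Pi K.A) pinTy) (a : K.Om pinTy) (h : K.Cls K.A pinTy f a) :
    K.pin a = 1 ∨ K.pin a = -1 := K.exotic.A_cls f a h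

theorem B_cls (f : Mor (K.Pi K.B) pinTy) (a : K.Om pinTy) (h : K.Cls K.B pinTy f a) :
    K.pin a = 9 ∨ K.pin a = -9 := K.exotic.B_cls f a h

theorem homeo (M : Code) (h : Closed M) : Homeo (K.sum M K.A) (K.sum M K.B) := K.exotic.homeo M h

theorem gompf : Diffeo (K.sum K.S K.A) (K.sum K.S K.B) := K.exotic.gompf

end Known

end Pool.Agent.U937.DD
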