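import Pool.Agent.U937.DD.Known
import Pool.Agent.U937.DD.Conj
import Pool.Agent.U937.DD.Grp

set_option autoImplicit false

/-!
# The manifolds `X # A` and `X # B`
-/

namespace Pool.Agent.U937.DD

/-- the inverse of a bijective morphism -/
noncomputable def Mor.inv {S T : Ty} (e : Mor S T) (h : Function.Bijective e.f) : Mor T S where
  f := (MulEquiv.ofBijective e.f h).symm.toMonoidHom
  map_z := by
    rw [← e.map_z]
    exact (MulEquiv.ofBijective e.f h).symm_apply_apply S.z
  map_w g := by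
    obtain ⟨x, rfl⟩ := h.2 g
    rw [e.map_w]
    congr 1
    exact (MulEquiv.ofBijective e.f h).symm_apply_apply x

theorem Mor.inv_apply {S T : Ty} (e : Mor S T) (h : Function.Bijective e.f) (x : S.G) :
    (e.inv h).f (e.f x) = x := (MulEquiv.ofBijective e.f h).symm_apply_apply x

theorem Mor.apply_inv {S T : Ty} (e : Mor S T) (h : Function.Bijective e.f) (x : T.G) :
    e.f ((e.inv h).f x) = x := (MulEquiv.ofBijective e.f h).apply_symm_apply x

/-- the identity -/
def Mor.id (T : Ty) : Mor T T where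
  f := MonoidHom.id _
  map_z := rfl
  map_w _ := rfl

theorem Mor.ext' {S T : Ty} {f g : Mor S T} (h : ∀ x, f.f x = g.f x) : f = g := by
  apply Mor.ext
  exact MonoidHom.ext h

instance : DecidableEq pinTy.G := inferInstanceAs (DecidableEq (C2 × C2))
instance : Fintype pinTy.G := inferInstanceAs (Fintype (C2 × C2))

/-- the generator `t` of `pinTy` -/
def pt : pinTy.G := ((Multiplicative.ofAdd 1 : C2), (1 : C2))

theorem pin_cases (x : pinTy.G) (h : pinTy.w x = -1) : x = pt ∨ x = pinTy.z * pt := by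
  revert h
  revert x
  decide

theorem pin_all (x : pinTy.G) : x = 1 ∨ x = pinTy.z ∨ x = pt ∨ x = pinTy.z * pt := by
  revert x
  decide

theorem pt_sq : pt * pt = 1 := by decide

theorem pt_w : pinTy.w pt = -1 := by decide

/-- morphisms from `pinTy` are determined by the image of `pt` -/
theorem pin_ext {T : Ty} {f g : Mor pinTy T} (h : f.f pt = g.f pt) : f = g := by
  apply Mor.ext'
  intro x
  rcases pin_all x with rfl | rfl | rfl | rfl
  · rw [map_one, map_one]
  · rw [f.map_z, g.map_z]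
  · exact h
  · rw [map_mul, map_mul, f.map_z, g.map_z, h]

/-- the automorphism `t ↦ z t` of the group -/
def twistHom : C2 × C2 →* C2 × C2 where
  toFun := fun x => (x.1, x.2 * x.1)
  map_one' := by decide
  map_mul' := by decide

/-- the automorphism `t ↦ z t` -/
def twist : Mor pinTy pinTy where
  f := twistHom
  map_z := by decide
  map_w := by decide

theorem twist_pt : twist.f pt = pinTy.z * pt := by decide

namespace Known

variable (K : Known)

theorem map_id' {T : Ty} (a : K.Om T) : K.map (Mor.id T) a = a := by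
  have h : Mor.id T = inner T 1 := by
    apply Mor.ext'
    intro x
    change x = 1 * x * 1⁻¹
    simp
  rw [h]
  exact K.map_inner T 1 (map_one _) a

theorem map_bij_inj {S T : Ty} (e : Mor S T) (h : Function.Bijective e.f) :
    Function.Injective (K.map e) := by
  intro a b hab
  have h1 : (e.inv h).comp e = Mor.id S := Mor.ext' fun x => e.inv_apply h x
  have h2 : ∀ a, K.map (e.inv h) (K.map e a) = a := by
    intro a
    rw [← K.map_comp, h1, map_id']
  rw [← h2 a, hab, h2 b]

/-- **The manifolds `X # A` and `X # B` are not diffeomorphic if the universal covering of `X` is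
spin.** -/
theorem not_diffeo (n : ℕ) (P : Pres n) (hz : (ghat P).z ≠ 1) :
    ¬ Diffeo (K.sum (K.bd n P) K.A) (K.sum (K.bd n P) K.B) := by
  intro hD
  set X := K.bd n P with hX
  have cX : Closed X := K.bd_closed n P
  obtain ⟨e, he⟩ := K.bd_pi n P
  obtain ⟨eA, heA⟩ := K.A_pi
  obtain ⟨eB, heB⟩ := K.B_pi
  have hXz : (K.Pi X).z ≠ 1 := by
    intro h
    apply hz
    apply he.1
    rw [e.map_z, h, map_one]
  have hXw : (K.Pi X).w = 1 := by
    ext g
    obtain ⟨x, rfl⟩ := he.2 g
    rw [e.map_w]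
    rfl
  have hBz : (K.Pi K.B).z ≠ 1 := by
    intro h
    have h1 : eB.f pinTy.z = eB.f 1 := by rw [eB.map_z, h, map_one]
    have h2 := heB.1 h1
    revert h2
    decide
  obtain ⟨i, j, hpo, hcl⟩ := K.sum_pi X K.B cX K.B_closed
  obtain ⟨i', j', -, hcl'⟩ := K.sum_pi X K.A cX K.A_closed
  obtain ⟨θ, -, hθ⟩ := K.cls_diffeo _ _ (K.sum_closed _ _ cX K.A_closed)
    (K.sum_closed _ _ cX K.B_closed) hD
  -- the two morphisms from `pinTy`
  let k : Mor pinTy (K.Pi (K.sum X K.B)) := j.comp eB
  let k' : Mor pinTy (K.Pi (K.sum X K.B)) := θ.comp (j'.comp eA)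
  -- the map induced by `k` is injective
  have kinj : Function.Injective (K.map k) := by
    intro a b hab
    apply K.map_bij_inj eB heB
    have h1 : K.map j (K.map eB a) = K.map j (K.map eB b) := by
      rw [← K.map_comp, ← K.map_comp]
      exact hab
    have h2 : K.map i 0 + K.map j (K.map eB a - K.map eB b) = 0 := by
      rw [map_zero, zero_add, map_sub, h1, sub_self]
    obtain ⟨c, u, v, h3, h4⟩ := K.mayer_vietoris i j hpo hXz hBz _ _ h2
    have h5 : c = 0 := K.spin_injective _ u hXz hXw (by rw [← h3, map_zero])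
    rw [h5, map_zero, neg_zero] at h4
    exact sub_eq_zero.1 h4
  -- the image of `t`
  obtain ⟨g, u, hg, hgu⟩ := involution hpo hXw (k'.f pt)
    (by rw [← map_mul, pt_sq, map_one]) (by rw [k'.map_w, pt_w])
  have hu : ∃ τ : Mor pinTy pinTy, k' = (inner (K.Pi (K.sum X K.B)) g).comp (k.comp τ) := by
    have h1 : pinTy.w ((eB.inv heB).f u) = -1 := by
      have h2 : (K.Pi (K.sum X K.B)).w (j.f u) = -1 := by
        have h3 : (K.Pi (K.sum X K.B)).w (k'.f pt) = -1 := by rw [k'.map_w, pt_w]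
        rw [hgu, map_mul, map_mul, map_inv, hg] at h3
        simpa using h3
      rw [(eB.inv heB).map_w, ← j.map_w, h2]
    have h4 : u = eB.f ((eB.inv heB).f u) := (eB.apply_inv heB u).symm
    rcases pin_cases _ h1 with h5 | h5
    · refine ⟨Mor.id _, pin_ext ?_⟩
      change k'.f pt = g * j.f (eB.f pt) * g⁻¹
      rw [hgu, ← h5, ← h4]
    · refine ⟨twist, pin_ext ?_⟩
      change k'.f pt = g * j.f (eB.f (twist.f pt)) * g⁻¹
      rw [hgu, twist_pt, ← h5, ← h4]
  obtain ⟨τ, hτ⟩ := hu
  -- the class of `X # B`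
  obtain ⟨c, hc⟩ := K.cls_exists _ (K.sum_closed _ _ cX K.B_closed) _ (Mor.id _)
  obtain ⟨a, b, ha, hb, hab⟩ := hcl _ (Mor.id _) c hc
  have ha0 : a = 0 := K.bd_cls n P _ _ a ha
  have hjb : (Mor.id (K.Pi (K.sum X K.B))).comp j = k.comp (eB.inv heB) := by
    apply Mor.ext'
    intro x
    change j.f x = j.f (eB.f ((eB.inv heB).f x))
    rw [eB.apply_inv heB]
  rw [hjb] at hb
  obtain ⟨b0, hb0, hb1⟩ := (K.cls_map K.B K.B_closed (eB.inv heB) k b).1 hb
  -- the class of `X # A`
  have hc' := hθ _ (Mor.id _) c hc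
  obtain ⟨a', b', ha', hb', hab'⟩ := hcl' _ _ c hc'
  have ha0' : a' = 0 := K.bd_cls n P _ _ a' ha'
  have hja : ((Mor.id (K.Pi (K.sum X K.B))).comp θ).comp j' =
      ((inner (K.Pi (K.sum X K.B)) g).comp k).comp (τ.comp (eA.inv heA)) := by
    apply Mor.ext'
    intro x
    change θ.f (j'.f x) = (inner (K.Pi (K.sum X K.B)) g).f (k.f (τ.f ((eA.inv heA).f x)))
    have h1 : ∀ y, k'.f y = (inner (K.Pi (K.sum X K.B)) g).f (k.f (τ.f y)) := fun y => by rw [hτ]; rfl
    rw [← h1]
    change θ.f (j'.f x) = θ.f (j'.f (eA.f ((eA.inv heA).f x)))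
    rw [eA.apply_inv heA]
  rw [hja] at hb'
  obtain ⟨a0, ha0'', hb1'⟩ := (K.cls_map K.A K.A_closed (τ.comp (eA.inv heA))
    ((inner (K.Pi (K.sum X K.B)) g).comp k) b').1 hb'
  rw [K.map_comp, K.map_inner _ g hg] at hb1'
  -- comparison
  have h1 : K.map k b0 = K.map k a0 := by
    rw [← hb1, ← hb1']
    have h2 : c = b := by rw [hab, ha0, zero_add]
    have h3 : c = b' := by rw [hab', ha0', zero_add]
    rw [← h2, ← h3]
  have h2 : b0 = a0 := kinj h1
  have h3 := K.B_cls _ _ hb0
  have h4 := K.A_cls _ _ ha0''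
  rw [h2] at h3
  rcases h3 with h3 | h3 <;> rcases h4 with h4 | h4 <;>
  · rw [h3] at h4
    revert h4
    decide

theorem A_nonor : (K.Pi K.A).w ≠ 1 := by
  obtain ⟨e, he⟩ := K.A_pi
  intro h
  have h1 := e.map_w pt
  rw [h, pt_w] at h1
  exact absurd h1.symm (by change (-1 : ℤˣ) ≠ 1; decide)

theorem B_nonor : (K.Pi K.B).w ≠ 1 := by
  obtain ⟨e, he⟩ := K.B_pi
  intro h
  have h1 := e.map_w pt
  rw [h, pt_w] at h1
  exact absurd h1.symm (by change (-1 : ℤˣ) ≠ 1; decide)

theorem Pi_sum_nonor (M N : Code) (hM : Closed M) (hN : Closed N) (h : (K.Pi N).w ≠ 1) :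
    (K.Pi (K.sum M N)).w ≠ 1 := by
  obtain ⟨i, j, -, -⟩ := K.sum_pi M N hM hN
  intro h1
  apply h
  ext g
  rw [← j.map_w, h1]
  rfl

theorem drefl (M : Code) : Diffeo M M := Relation.EqvGen.refl _
theorem dsymm {M N : Code} (h : Diffeo M N) : Diffeo N M := Relation.EqvGen.symm _ _ h
theorem dtrans {M N L : Code} (h : Diffeo M N) (h' : Diffeo N L) : Diffeo M L :=
  Relation.EqvGen.trans _ _ _ h h'

/-- **the manifolds `X # A` and `X # B` are diffeomorphic if `X` is obtained by a surgery on a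
contractible circle with odd framing** -/
theorem diffeo {m : ℕ} (R : Finset (FreeGroup (Fin m))) (w : List (Fin m × Bool))
    (h : FreeGroup.mk w ∈ Subgroup.normalClosure (R : Set (FreeGroup (Fin m)))) :
    Diffeo (K.sum (K.bd _ (pw R w)) K.A) (K.sum (K.bd _ (pw R w)) K.B) := by
  have c0 := K.bd_closed _ (pw R w)
  have c1 := K.bd_closed _ (base R)
  have cS := K.sum_closed _ _ c1 K.S_closed
  have cSA := K.sum_closed _ _ K.S_closed K.A_closed
  have cSB := K.sum_closed _ _ K.S_closed K.B_closed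
  have h1 : Diffeo (K.bd _ (pw R w)) (K.sum (K.bd _ (base R)) K.S) :=
    K.surgery _ (base R) (rhoWord w) (base_mark R) (rho_mem R w h)
  have h2 := K.sum_left _ _ K.A c0 cS K.A_closed K.A_nonor h1
  have h3 := K.sum_assoc _ _ K.A c1 K.S_closed K.A_closed K.A_nonor
  have h4 := K.sum_right _ _ _ c1 cSA cSB
    (K.Pi_sum_nonor _ _ K.S_closed K.A_closed K.A_nonor) K.gompf
  have h5 := K.sum_assoc _ _ K.B c1 K.S_closed K.B_closed K.B_nonor
  have h6 := K.sum_left _ _ K.B c0 cS K.B_closed K.B_nonor h1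
  exact dtrans h2 (dtrans h3 (dtrans h4 (dtrans (dsymm h5) (dsymm h6))))

/-- **`X # A` and `X # B` are diffeomorphic if and only if the word is trivial** -/
theorem diffeo_iff {m : ℕ} (R : Finset (FreeGroup (Fin m))) (w : List (Fin m × Bool)) :
    Diffeo (K.sum (K.bd _ (pw R w)) K.A) (K.sum (K.bd _ (pw R w)) K.B) ↔
      FreeGroup.mk w ∈ Subgroup.normalClosure (R : Set (FreeGroup (Fin m))) := by
  constructor
  · intro h
    by_contra hw
    exact K.not_diffeo _ _ (z_ne_one R w hw) h
  · exact K.diffeo R w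

end Known

end Pool.Agent.U937.DD
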